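import Pool.Agent.V11319.MCDataU322

/-!
The number `322` has two MC-circles that are not equivalent under lattice symmetries, and also two
MC-sets that are not equivalent. The notions `inside`, `Encloses`, `IsMCCircle` are in
`Pool.Agent.V11319.MCDefs`.
-/

namespace Pool.Agent.Results.MP_ab672e_co.TwoMCCircles

open Pool.Agent.V11319.MC

/-- The lattice `ℤ²` as a subset of the plane. -/
def lattice : Set (ℝ × ℝ) := {p | ∃ a b : ℤ, p = ((a : ℝ), (b : ℝ))}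

/-- The squared Euclidean distance in the plane. -/
def distSq (p q : ℝ × ℝ) : ℝ := (p.1 - q.1) ^ 2 + (p.2 - q.2) ^ 2

/-- A lattice symmetry is an isometry `g` of the plane with `g(ℤ²) = ℤ²`. -/
def IsLatticeSymmetry (g : ℝ × ℝ → ℝ × ℝ) : Prop :=
  (∀ p q, distSq (g p) (g q) = distSq p q) ∧ g '' lattice = lattice

/-- The circle with centre `(x, y)` and radius `r` as a subset of the plane. -/
def circle (x y r : ℝ) : Set (ℝ × ℝ) := {p | distSq p (x, y) = r ^ 2}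

/-- The set of lattice points enclosed by the circle with centre `(x, y)` and radius `r`. -/
def enclosed (x y r : ℝ) : Set (ℝ × ℝ) := {p | p ∈ lattice ∧ distSq p (x, y) < r ^ 2}

lemma dist_cast (p q : ℤ × ℤ) : distSq ((p.1 : ℝ), (p.2 : ℝ)) ((q.1 : ℝ), (q.2 : ℝ)) =
    (((p.1 - q.1) ^ 2 + (p.2 - q.2) ^ 2 : ℤ) : ℝ) := by
  rw [distSq]; push_cast; ring

lemma pairs_b : ∀ p ∈ LU322b, ∀ q ∈ LU322b,
    (p.1 - q.1) ^ 2 + (p.2 - q.2) ^ 2 ≠ (225 : ℤ) := by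
  decide

/-- the eight integer vectors of squared length `405` -/
def V : List (ℤ × ℤ) :=
  [(9, 18), (9, -18), (-9, 18), (-9, -18), (18, 9), (18, -9), (-18, 9), (-18, -9)]

lemma mem_V : ∀ a ∈ Finset.Icc (-20 : ℤ) 20, ∀ b ∈ Finset.Icc (-20 : ℤ) 20,
    a ^ 2 + b ^ 2 = 405 → (a, b) ∈ V := by
  decide +kernel

lemma no405_aux : ∀ a ∈ Finset.Icc (-10 : ℤ) 10, ∀ b ∈ Finset.Icc (-10 : ℤ) 10, ∀ d ∈ V,
    (34 * a - 9) ^ 2 + (34 * b - 9) ^ 2 < 120250 →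
    (34 * (a - d.1) - 9) ^ 2 + (34 * (b - d.2) - 9) ^ 2 < 120250 → False := by
  decide +kernel

lemma no405 (p q : ℤ × ℤ) (hp : nrm 34 9 9 p < 120250) (hq : nrm 34 9 9 q < 120250)
    (h : (p.1 - q.1) ^ 2 + (p.2 - q.2) ^ 2 = 405) : False := by
  rw [nrm] at hp hq
  have hV := mem_V (p.1 - q.1) (by
    rw [Finset.mem_Icc]; constructor <;> nlinarith [sq_nonneg (p.2 - q.2)]) (p.2 - q.2) (by
    rw [Finset.mem_Icc]; constructor <;> nlinarith [sq_nonneg (p.1 - q.1)]) h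
  refine no405_aux p.1 ?_ p.2 ?_ _ hV hp ?_
  · rw [Finset.mem_Icc]
    constructor <;> nlinarith [sq_nonneg (34 * p.2 - 9)]
  · rw [Finset.mem_Icc]
    constructor <;> nlinarith [sq_nonneg (34 * p.1 - 9)]
  · simpa using hq

/-- The circles with centres `(1/2, 3/34)` and `(9/34, 9/34)` and radius `√(60125/578)` are both
MC-circles of `322`. No lattice symmetry maps the first circle onto the second, and no lattice
symmetry maps the set of lattice points enclosed by the first onto that of the second. -/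
theorem result :
    IsMCCircle 322 (1 / 2) (3 / 34) (Real.sqrt (60125 / 578)) ∧
    IsMCCircle 322 (9 / 34) (9 / 34) (Real.sqrt (60125 / 578)) ∧
    (∀ g, IsLatticeSymmetry g → g '' circle (1 / 2) (3 / 34) (Real.sqrt (60125 / 578)) ≠
      circle (9 / 34) (9 / 34) (Real.sqrt (60125 / 578))) ∧
    (∀ g, IsLatticeSymmetry g → g '' enclosed (1 / 2) (3 / 34) (Real.sqrt (60125 / 578)) ≠
      enclosed (9 / 34) (9 / 34) (Real.sqrt (60125 / 578))) := by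
  have e1 : (((17 : ℕ) : ℝ)) / ((34 : ℕ) : ℝ) = 1 / 2 := by norm_num
  have e2 : (((3 : ℕ) : ℝ)) / ((34 : ℕ) : ℝ) = 3 / 34 := by norm_num
  have e3 : (((9 : ℕ) : ℝ)) / ((34 : ℕ) : ℝ) = 9 / 34 := by norm_num
  have e4 : (((120250 : ℕ) : ℝ)) / ((34 : ℕ) : ℝ) ^ 2 = 60125 / 578 := by norm_num
  have a1 := factsU322a.isMCCircle (by norm_num)
  have b1 := factsU322b.isMCCircle (by norm_num)
  have b2 := factsU322b.onCircle_eq
  rw [e1, e2, e4] at a1
  rw [e3, e4] at b1 b2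
  have hs : Real.sqrt (60125 / 578) ^ 2 = 60125 / 578 := Real.sq_sqrt (by norm_num)
  refine ⟨a1, b1, ?_, ?_⟩
  · intro g hg himg
    have key : ∀ p : ℤ × ℤ, nrm 34 17 3 p = 120250 →
        ∃ q ∈ LU322b, g ((p.1 : ℝ), (p.2 : ℝ)) = ((q.1 : ℝ), (q.2 : ℝ)) := by
      intro p hp
      have h1 : ((p.1 : ℝ), (p.2 : ℝ)) ∈ circle (1 / 2) (3 / 34) (Real.sqrt (60125 / 578)) := by
        rw [circle, Set.mem_ofPred_eq, distSq, hs]
        rw [nrm] at hp
        have hp' : (34 * (p.1 : ℝ) - 17) ^ 2 + (34 * (p.2 : ℝ) - 3) ^ 2 = 120250 := by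
          exact_mod_cast hp
        linear_combination hp' / 1156
      have h2 : g ((p.1 : ℝ), (p.2 : ℝ)) ∈ circle (9 / 34) (9 / 34)
          (Real.sqrt (60125 / 578)) := by
        rw [← himg]; exact ⟨_, h1, rfl⟩
      have h3 : g ((p.1 : ℝ), (p.2 : ℝ)) ∈ lattice := by
        rw [← hg.2]; exact ⟨_, ⟨p.1, p.2, rfl⟩, rfl⟩
      obtain ⟨a, b, hab⟩ := h3
      refine ⟨(a, b), ?_, hab⟩
      have h4 : (a, b) ∈ onCircle (9 / 34) (9 / 34) (Real.sqrt (60125 / 578)) := by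
        rw [hab, circle, Set.mem_ofPred_eq, distSq] at h2
        exact h2
      rw [b2] at h4
      exact h4
    obtain ⟨p, hp, hp'⟩ := key (-7, 7) (by norm_num [nrm])
    obtain ⟨q, hq, hq'⟩ := key (8, 7) (by norm_num [nrm])
    have h5 := hg.1 ((((-7 : ℤ)) : ℝ), ((7 : ℤ) : ℝ)) (((8 : ℤ) : ℝ), ((7 : ℤ) : ℝ))
    rw [hp', hq', dist_cast p q, dist_cast (-7, 7) (8, 7)] at h5
    have h6 : (p.1 - q.1) ^ 2 + (p.2 - q.2) ^ 2 = (225 : ℤ) := by
      have := Int.cast_injective h5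
      rw [this]; norm_num
    exact pairs_b p hp q hq h6
  · intro g hg himg
    have key : ∀ p : ℤ × ℤ, nrm 34 17 3 p < 120250 →
        ∃ q : ℤ × ℤ, nrm 34 9 9 q < 120250 ∧ g ((p.1 : ℝ), (p.2 : ℝ)) = ((q.1 : ℝ), (q.2 : ℝ)) := by
      intro p hp
      have h1 : ((p.1 : ℝ), (p.2 : ℝ)) ∈ enclosed (1 / 2) (3 / 34) (Real.sqrt (60125 / 578)) := by
        refine ⟨⟨p.1, p.2, rfl⟩, ?_⟩
        rw [distSq, hs]
        rw [nrm] at hp
        have hp' : (34 * (p.1 : ℝ) - 17) ^ 2 + (34 * (p.2 : ℝ) - 3) ^ 2 < 120250 := by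
          exact_mod_cast hp
        have e : ((p.1 : ℝ) - 1 / 2) ^ 2 + ((p.2 : ℝ) - 3 / 34) ^ 2 =
            ((34 * (p.1 : ℝ) - 17) ^ 2 + (34 * (p.2 : ℝ) - 3) ^ 2) / 1156 := by ring
        show ((p.1 : ℝ) - 1 / 2) ^ 2 + ((p.2 : ℝ) - 3 / 34) ^ 2 < 60125 / 578
        rw [e, div_lt_iff₀ (by norm_num)]
        linarith
      have h2 : g ((p.1 : ℝ), (p.2 : ℝ)) ∈ enclosed (9 / 34) (9 / 34)
          (Real.sqrt (60125 / 578)) := by
        rw [← himg]; exact ⟨_, h1, rfl⟩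
      obtain ⟨⟨a, b, hab⟩, h3⟩ := h2
      refine ⟨(a, b), ?_, hab⟩
      rw [hab, distSq, hs] at h3
      have e : ((a : ℝ) - 9 / 34) ^ 2 + ((b : ℝ) - 9 / 34) ^ 2 =
          ((34 * (a : ℝ) - 9) ^ 2 + (34 * (b : ℝ) - 9) ^ 2) / 1156 := by ring
      have h4 : ((34 * (a : ℝ) - 9) ^ 2 + (34 * (b : ℝ) - 9) ^ 2) / 1156 < 60125 / 578 := by
        rw [← e]; exact h3
      rw [div_lt_iff₀ (by norm_num)] at h4
      have h5 : (34 * (a : ℝ) - 9) ^ 2 + (34 * (b : ℝ) - 9) ^ 2 < 120250 := by linarith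
      rw [nrm]
      exact_mod_cast h5
    obtain ⟨p, hp, hp'⟩ := key (-4, -9) (by norm_num [nrm])
    obtain ⟨q, hq, hq'⟩ := key (5, 9) (by norm_num [nrm])
    have h5 := hg.1 ((((-4 : ℤ)) : ℝ), ((-9 : ℤ) : ℝ)) (((5 : ℤ) : ℝ), ((9 : ℤ) : ℝ))
    rw [hp', hq', dist_cast p q, dist_cast (-4, -9) (5, 9)] at h5
    have h6 : (p.1 - q.1) ^ 2 + (p.2 - q.2) ^ 2 = (405 : ℤ) := by
      have := Int.cast_injective h5
      rw [this]; norm_num
    exact no405 p q hp hq h6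

end Pool.Agent.Results.MP_ab672e_co.TwoMCCircles
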